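import Pool.Agent.W728.LH.Stms

/-! Project LH: `P[X 0]` for an infinite field `P`. -/

set_option autoImplicit false

namespace Pool.Agent.W392.LH

open MvPolynomial Pool.Agent.W728.LH

section

variable {P : Type} [Field P] {m : ℕ}

theorem isC_C (r : P) : IsC (C r : MvPolynomial (Fin m) P) := by
  by_cases h : r = 0
  · exact Or.inl (by rw [h, C_0])
  · exact Or.inr ((isUnit_iff_ne_zero.2 h).map C)

theorem isC_eq {c : MvPolynomial (Fin m) P} (h : IsC c) : ∃ r : P, c = C r := by
  rcases h with h | h
  · exact ⟨0, by rw [h, C_0]⟩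
  · obtain ⟨r, _, hr⟩ := MvPolynomial.isUnit_iff_eq_C_of_isReduced.1 h
    exact ⟨r, hr⟩

theorem coprime (i : Fin m) (a b : P) (h : a ≠ b) :
    IsCoprime (X i - C a : MvPolynomial (Fin m) P) (X i - C b) := by
  refine ⟨C (b - a)⁻¹, -C (b - a)⁻¹, ?_⟩
  have h1 : (C (b - a)⁻¹ : MvPolynomial (Fin m) P) * C (b - a) = 1 := by
    rw [← C_mul, inv_mul_cancel₀ (sub_ne_zero.2 h.symm), C_1]
  rw [C_sub] at h1
  linear_combination h1

theorem deg_pos (i : Fin m) (a : P) : 1 ≤ (X i - C a : MvPolynomial (Fin m) P).totalDegree := by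
  by_contra h
  have h0 : (X i - C a : MvPolynomial (Fin m) P).totalDegree = 0 := by omega
  rw [totalDegree_eq_zero_iff_eq_C] at h0
  have h1 := congrArg (eval fun _ => (0 : P)) h0
  have h2 := congrArg (eval fun _ => (1 : P)) h0
  simp only [map_sub, eval_X, eval_C] at h1 h2
  have h3 : (0 : P) - a = 1 - a := h1.trans h2.symm
  have h4 : (0 : P) = 1 := by linear_combination h3
  exact zero_ne_one h4

theorem deg_prod (i : Fin m) (s : Finset P) :
    (∏ a ∈ s, (X i - C a : MvPolynomial (Fin m) P)) ≠ 0 ∧
    s.card ≤ (∏ a ∈ s, (X i - C a : MvPolynomial (Fin m) P)).totalDegree := by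
  classical
  induction s using Finset.induction_on with
  | empty => simp
  | insert a s ha ih =>
    rw [Finset.prod_insert ha, Finset.card_insert_of_notMem ha]
    have h0 : (X i - C a : MvPolynomial (Fin m) P) ≠ 0 := by
      intro h
      have := deg_pos i a
      rw [h, totalDegree_zero] at this
      omega
    refine ⟨mul_ne_zero h0 ih.1, ?_⟩
    rw [totalDegree_mul_of_isDomain h0 ih.1]
    have := deg_pos i a
    have := ih.2
    omega

end

theorem t_INF : INF_stmt := by
  intro P _ _ m hm g
  set x : MvPolynomial (Fin m) P := X ⟨0, hm⟩ with hx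
  constructor
  · intro h
    let f : Fin m → MvPolynomial (Fin m) P := fun j => if j = ⟨0, hm⟩ then x else 0
    have hfx : aeval f x = x := by
      rw [hx, aeval_X]
      simp [f, hx]
    have hdvd : ∀ r : P, (x - C r) ∣ (g - aeval f g) := by
      intro r
      obtain ⟨d, hd, hdv⟩ := h (C r) (isC_C r)
      obtain ⟨s, rfl⟩ := isC_eq hd
      have h1 : aeval f (x - C r) ∣ aeval f (g - C s) := map_dvd (aeval f) hdv
      rw [map_sub, map_sub, hfx, aeval_C, aeval_C] at h1
      have h2 : g - aeval f g = (g - C s) - (aeval f g - C s) := by ring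
      rw [h2]
      exact dvd_sub hdv h1
    have he : g - aeval f g = 0 := by
      by_contra hne
      obtain ⟨s, hs⟩ := Infinite.exists_subset_card_eq P ((g - aeval f g).totalDegree + 1)
      have h1 : ∏ a ∈ s, (x - C a) ∣ (g - aeval f g) := by
        refine Finset.prod_dvd_of_coprime ?_ fun a _ => hdvd a
        intro a _ b _ hab
        exact coprime _ a b hab
      obtain ⟨q, hq⟩ := h1
      have hd := deg_prod (P := P) (⟨0, hm⟩ : Fin m) s
      have hq0 : q ≠ 0 := by
        rintro rfl
        rw [mul_zero] at hq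
        exact hne hq
      have h2 := totalDegree_mul_of_isDomain hd.1 hq0
      rw [← hx, ← hq] at h2
      have h3 := hd.2
      rw [← hx] at h3
      omega
    rw [sub_eq_zero.1 he]
    have key : ∀ p : MvPolynomial (Fin m) P, aeval f p ∈ supported P {i : Fin m | i.val ≤ 0} := by
      intro p
      induction p using MvPolynomial.induction_on with
      | C a =>
        rw [aeval_C]
        exact Subalgebra.algebraMap_mem _ _
      | add p q hp hq => rw [map_add]; exact Subalgebra.add_mem _ hp hq
      | mul_X p i hp =>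
        rw [map_mul, aeval_X]
        refine Subalgebra.mul_mem _ hp ?_
        show (if i = ⟨0, hm⟩ then x else 0) ∈ _
        split_ifs with hi
        · rw [hx]
          exact Algebra.subset_adjoin ⟨⟨0, hm⟩, le_refl 0, rfl⟩
        · exact Subalgebra.zero_mem _
    exact key g
  · intro h c hc
    obtain ⟨r, rfl⟩ := isC_eq hc
    refine ⟨C (eval (fun _ => r) g), isC_C _, ?_⟩
    unfold supported at h
    induction h using Algebra.adjoin_induction with
    | mem y hy =>
      obtain ⟨i, hi, rfl⟩ := hy
      have hi0 : i = ⟨0, hm⟩ := Fin.ext (Nat.le_zero.1 hi)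
      rw [hi0, eval_X]
    | algebraMap a =>
      rw [algebraMap_eq, eval_C, sub_self]
      exact dvd_zero _
    | add p q _ _ hp hq =>
      rw [map_add, C_add]
      have : p + q - (C (eval (fun _ => r) p) + C (eval (fun _ => r) q)) =
          (p - C (eval (fun _ => r) p)) + (q - C (eval (fun _ => r) q)) := by ring
      rw [this]
      exact dvd_add hp hq
    | mul p q _ _ hp hq =>
      rw [map_mul, C_mul]
      have : p * q - (C (eval (fun _ => r) p) * C (eval (fun _ => r) q)) =
          (p - C (eval (fun _ => r) p)) * q +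
            (q - C (eval (fun _ => r) q)) * C (eval (fun _ => r) p) := by ring
      rw [this]
      exact dvd_add (hp.mul_right _) (hq.mul_right _)

end Pool.Agent.W392.LH
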